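import Pool.Agent.helper90.FL.All

/-!
# The real flow roots of the generalized Petersen graphs P(mk, k) are at most 2k + 2

The bound does not depend on `m`. For `k = 6`: all real flow roots of all graphs `P(6m, 6)` are at
most `14`.
-/

set_option autoImplicit false

namespace Pool.Agent.Results.MP_fe76a7_co.UniformBoundForRealFlowRoots

open Polynomial

/-- The vertices of `P(n, k)`: `v_i = (false, i)` and `w_i = (true, i)`, `i` modulo `n`. -/
abbrev Vert (n : ℕ) : Type := Bool × ZMod n

/-- The edges of `P(n, k)`, as a multigraph: `(0, i)` is the edge `v_i v_{i+1}`, `(1, i)` is the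
edge `v_i w_i` and `(2, i)` is the edge `w_i w_{i+k}`, for `i` modulo `n`. -/
abbrev Edge (n : ℕ) : Type := Fin 3 × ZMod n

/-- The first end of an edge. -/
def tail (n : ℕ) (e : Edge n) : Vert n := if e.1 = 2 then (true, e.2) else (false, e.2)

/-- The second end of an edge. -/
def head (n k : ℕ) (e : Edge n) : Vert n :=
  if e.1 = 0 then (false, e.2 + 1) else if e.1 = 1 then (true, e.2) else (true, e.2 + k)

/-- The number of nowhere-zero `ZMod q` flows of the subgraph of `P(n, k)` with the edge set `A`:
maps from all edges to `ZMod q` which are nonzero exactly on `A` and satisfy the conservation law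
at every vertex. -/
noncomputable def flows (n k q : ℕ) [NeZero n] (A : Finset (Edge n)) : ℕ :=
  Nat.card {f : Edge n → ZMod q // (∀ e, f e ≠ 0 ↔ e ∈ A) ∧
    ∀ v : Vert n, (∑ e, if tail n e = v then f e else 0) = ∑ e, if head n k e = v then f e else 0}

/-- `F` is the flow polynomial of the subgraph of `P(n, k)` with the edge set `A`. -/
def IsFlowPolynomial (n k : ℕ) [NeZero n] (A : Finset (Edge n)) (F : ℤ[X]) : Prop :=
  ∀ q : ℕ, 1 ≤ q → F.eval (q : ℤ) = (flows n k q A : ℤ)

open Classical in
/-- The subgraph with the edge set `A` has no bridge: there is no set `S` of vertices such that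
exactly one edge of `A` has exactly one end in `S`. -/
def Bridgeless (n k : ℕ) (A : Finset (Edge n)) : Prop :=
  ∀ S : Set (Vert n), (A.filter fun e => ¬ (tail n e ∈ S ↔ head n k e ∈ S)).card ≠ 1

theorem uniq {n k : ℕ} [NeZero n] {A : Finset (Edge n)} {F G : ℤ[X]}
    (hF : IsFlowPolynomial n k A F) (hG : IsFlowPolynomial n k A G) : G = F :=
  Pool.Agent.helper90.FL.GEN_uniq fun q hq => (hG q hq).trans (hF q hq).symm

/-- Let `n = m k`, `k ≥ 1`, `m ≥ 2`, and let `A` be a set of edges of `P(n, k)`. The flow polynomial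
of the subgraph with the edge set `A` exists and is unique; it is nonnegative at all real numbers
`x > 2 k + 2`, and positive there if `A` is the set of all edges or if the subgraph is
bridgeless. -/
theorem result (m k n : ℕ) [NeZero n] (hn : n = m * k) (hk : 1 ≤ k) (hm : 2 ≤ m)
    (A : Finset (Edge n)) :
    ∃ F : ℤ[X], IsFlowPolynomial n k A F ∧ (∀ G : ℤ[X], IsFlowPolynomial n k A G → G = F) ∧
      ∀ x : ℝ, (2 * k + 2 : ℝ) < x →
        0 ≤ aeval x F ∧ (A = Finset.univ ∨ Bridgeless n k A → 0 < aeval x F) := by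
  have hkn : 2 * k ≤ n := by
    rw [hn]
    exact Nat.mul_le_mul_right k hm
  obtain ⟨F, h1, h2⟩ := Pool.Agent.helper90.FL.gen m k n hn hk hm A
  refine ⟨F, h1, fun G hG => uniq h1 hG, fun x hx => ⟨(h2 x hx).1, ?_⟩⟩
  rintro (rfl | hA)
  · exact (h2 x hx).2 (Pool.Agent.helper90.FL.brl n k hk hkn)
  · exact (h2 x hx).2 hA

end Pool.Agent.Results.MP_fe76a7_co.UniformBoundForRealFlowRoots
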